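import Mathlib
import Pool.Agent.S02358

set_option autoImplicit false

namespace Pool.Agent.Results.MP_cf54d7_al.Multiples
open H13GS

/-- The left-normed commutator `[u, v, …, v]` with `n` copies of `v`, `[a,b] = a⁻¹b⁻¹ab`. -/
def engel {G : Type} [Group G] (n : ℕ) (u v : G) : G := (fun w => w⁻¹ * v⁻¹ * w * v)^[n] u

/-- The group `M_n = ⟨x, y | x = [x, _n y], y = [y, _n x]⟩`. -/
abbrev M (n : ℕ) : Type := PresentedGroup
  ({(FreeGroup.of 0)⁻¹ * engel n (FreeGroup.of 0) (FreeGroup.of 1),
    (FreeGroup.of 1)⁻¹ * engel n (FreeGroup.of 1) (FreeGroup.of 0)} : Set (FreeGroup (Fin 2)))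

/-- There is `N ≥ 1` such that `M_n` is infinite for every positive multiple `n` of `N`. -/
theorem result : ∃ N : ℕ, 1 ≤ N ∧ ∀ k : ℕ, 1 ≤ k → Infinite (M (N * k)) := by
  have h := Pool.Agent.S02358.result
  push Not at h
  obtain ⟨A, B, hA, hB, h⟩ := h
  have hinf : Infinite (PresentedGroup (rels A B)) := h
  refine ⟨A * B, Nat.mul_pos hA hB, fun k _ => ?_⟩
  have hx : comm A (PresentedGroup.of 0 : PresentedGroup (rels A B)) (.of 1) = .of 0 := by
    have := PresentedGroup.one_of_mem (rels := rels A B) (Or.inl rfl)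
    rwa [map_mul, map_inv, map_comm, mul_inv_eq_one] at this
  have hy : comm B (PresentedGroup.of 1 : PresentedGroup (rels A B)) (.of 0) = .of 1 := by
    have := PresentedGroup.one_of_mem (rels := rels A B) (Or.inr rfl)
    rwa [map_mul, map_inv, map_comm, mul_inv_eq_one] at this
  have hx' := comm_mul (comm_mul hx B) k
  have hy' := comm_mul (comm_mul hy A) k
  rw [mul_comm B A] at hy'
  let φ : M (A * B * k) →* PresentedGroup (rels A B) :=
    PresentedGroup.toGroup (f := PresentedGroup.of) (by
      rintro _ (rfl | rfl)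
      · rw [map_mul, map_inv, inv_mul_eq_one]
        have := map_comm (FreeGroup.lift (PresentedGroup.of (rels := rels A B))) (A * B * k)
          (FreeGroup.of 0) (FreeGroup.of 1)
        simp only [FreeGroup.lift_apply_of] at this ⊢
        exact (this.trans hx').symm
      · rw [map_mul, map_inv, inv_mul_eq_one]
        have := map_comm (FreeGroup.lift (PresentedGroup.of (rels := rels A B))) (A * B * k)
          (FreeGroup.of 1) (FreeGroup.of 0)
        simp only [FreeGroup.lift_apply_of] at this ⊢
        exact (this.trans hy').symm)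
  refine Infinite.of_surjective φ ?_
  rw [← MonoidHom.range_eq_top, eq_top_iff, ← PresentedGroup.closure_range_of, Subgroup.closure_le]
  rintro _ ⟨i, rfl⟩
  exact ⟨.of i, PresentedGroup.toGroup.of _⟩

end Pool.Agent.Results.MP_cf54d7_al.Multiples
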